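import Pool.Agent.QSX.StmtsG

/-! # QSX row GRP: the matrices of the points of a datum form a group -/

set_option autoImplicit false

namespace Pool.Agent.QSX.H46

open Matrix Finset Pool.Agent.QSX

/-- the operator `ad (diag c)` -/
noncomputable def adc {m : ℕ} (c : Fin m → ℝ) (x : Matrix (Fin m) (Fin m) ℝ) :
    Matrix (Fin m) (Fin m) ℝ := diagonal c * x - x * diagonal c

theorem adc_apply {m : ℕ} (c : Fin m → ℝ) (x : Matrix (Fin m) (Fin m) ℝ) (i l : Fin m) :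
    adc c x i l = (c i - c l) * x i l := by
  rw [adc, Matrix.sub_apply, Matrix.diagonal_mul, Matrix.mul_diagonal]; ring

theorem adc_iter {m : ℕ} (c : Fin m → ℝ) (x : Matrix (Fin m) (Fin m) ℝ) (k : ℕ) (i l : Fin m) :
    ((adc c)^[k] x) i l = (c i - c l) ^ k * x i l := by
  induction k with
  | zero => simp
  | succ k ih => rw [Function.iterate_succ_apply', adc_apply, ih, pow_succ]; ring

theorem adc_mem {m : ℕ} (c : Fin m → ℝ) (n : Submodule ℝ (Matrix (Fin m) (Fin m) ℝ))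
    (h : ∀ x ∈ n, diagonal c * x - x * diagonal c ∈ n) (x : Matrix (Fin m) (Fin m) ℝ)
    (hx : x ∈ n) (k : ℕ) : (adc c)^[k] x ∈ n := by
  induction k with
  | zero => exact hx
  | succ k ih => rw [Function.iterate_succ_apply']; exact h _ ih

theorem conj_mem {m : ℕ} (c : Fin m → ℝ) (n : Submodule ℝ (Matrix (Fin m) (Fin m) ℝ))
    (h : ∀ x ∈ n, diagonal c * x - x * diagonal c ∈ n) (x : Matrix (Fin m) (Fin m) ℝ)
    (hx : x ∈ n) :
    ∃ x' ∈ n, ∀ i l, x' i l = Real.exp (c i - c l) * x i l := by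
  classical
  set s : Finset ℝ := Finset.univ.image (fun p : Fin m × Fin m => c p.1 - c p.2) with hs
  set p : Polynomial ℝ := Lagrange.interpolate s id Real.exp with hp
  have hev : ∀ i l, p.eval (c i - c l) = Real.exp (c i - c l) := by
    intro i l
    have hmem : c i - c l ∈ s := by
      rw [hs, Finset.mem_image]; exact ⟨(i, l), Finset.mem_univ _, rfl⟩
    exact Lagrange.eval_interpolate_at_node (s := s) (v := (id : ℝ → ℝ)) Real.exp
      (Set.injOn_id _) hmem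
  refine ⟨∑ k ∈ range (p.natDegree + 1), p.coeff k • (adc c)^[k] x, ?_, ?_⟩
  · exact Submodule.sum_mem _ fun k _ => Submodule.smul_mem _ _ (adc_mem c n h x hx k)
  · intro i l
    rw [Matrix.sum_apply, ← hev i l, Polynomial.eval_eq_sum_range, Finset.sum_mul]
    refine Finset.sum_congr rfl fun k _ => ?_
    rw [Matrix.smul_apply, adc_iter, smul_eq_mul]; ring

theorem ud_mul {m : ℕ} (c d : Fin m → ℝ) : ud c * ud d = ud (c + d) := by
  apply Units.ext
  change diagonal (fun i => Real.exp (c i)) * diagonal (fun i => Real.exp (d i)) =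
    diagonal (fun i => Real.exp ((c + d) i))
  rw [diagonal_mul_diagonal]
  congr 1; funext i; rw [Pi.add_apply, Real.exp_add]

theorem ud_zero {m : ℕ} : ud (0 : Fin m → ℝ) = 1 := by
  apply Units.ext
  change diagonal (fun i => Real.exp ((0 : Fin m → ℝ) i)) = (1 : Matrix (Fin m) (Fin m) ℝ)
  rw [← diagonal_one]; congr 1; funext i; rw [Pi.zero_apply, Real.exp_zero]

theorem ud_inv {m : ℕ} (c : Fin m → ℝ) : (ud c)⁻¹ = ud (-c) := by
  apply Units.ext
  rfl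

theorem ue_zero {m : ℕ} : ue (0 : Matrix (Fin m) (Fin m) ℝ) = 1 := by
  apply Units.ext
  rw [ue_val SU.zero, mexp_zero, Units.val_one]

theorem ue_inv {m : ℕ} {x : Matrix (Fin m) (Fin m) ℝ} (hx : SU x) : (ue x)⁻¹ = ue (-x) := by
  apply Units.ext
  rw [ue_inv_val hx, ue_val hx.neg]

theorem conj (h2 : McjStmt) {m : ℕ} (c : Fin m → ℝ) {y y' : Matrix (Fin m) (Fin m) ℝ}
    (hy : SU y) (hy' : ∀ i l, y' i l = Real.exp (c i - c l) * y i l) (hs : SU y') :
    ud c * ue y * (ud c)⁻¹ = ue y' := by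
  have he : ((ud c : (Matrix (Fin m) (Fin m) ℝ)ˣ) : Matrix (Fin m) (Fin m) ℝ) * y *
      (((ud c)⁻¹ : (Matrix (Fin m) (Fin m) ℝ)ˣ) : Matrix (Fin m) (Fin m) ℝ) = y' := by
    ext i l
    change (diagonal (fun i => Real.exp (c i)) * y * diagonal (fun i => Real.exp (-c i))) i l = _
    rw [Matrix.mul_diagonal, Matrix.diagonal_mul, hy' i l, sub_eq_add_neg, Real.exp_add]; ring
  have := h2 ℝ m (ud c) y hy (by rw [he]; exact hs)
  rw [he] at this
  exact this.symm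

theorem grp (h1 : BchStmt) (h2 : McjStmt) : GrpStmt := by
  intro D
  have key : ∀ c ∈ D.b, ∀ y ∈ D.n, ∃ y' ∈ D.n,
      (∀ i l, y' i l = Real.exp (c i - c l) * y i l) ∧
      ud c * ue y * (ud c)⁻¹ = ue y' := by
    intro c hc y hy
    obtain ⟨y', hy', he⟩ := conj_mem c D.n (D.stab c hc) y hy
    exact ⟨y', hy', he, conj h2 c (D.su y hy) he (D.su y' hy')⟩
  refine ⟨?_, key⟩
  refine ⟨{ carrier := {g | ∃ p : D.Pt, g = D.mat p}
            mul_mem' := ?_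
            one_mem' := ?_
            inv_mem' := ?_ }, fun g => Iff.rfl⟩
  · rintro g h ⟨⟨⟨x, hx⟩, ⟨c, hc⟩⟩, rfl⟩ ⟨⟨⟨y, hy⟩, ⟨d, hd⟩⟩, rfl⟩
    obtain ⟨y', hy', -, he⟩ := key c hc y hy
    obtain ⟨z, hz, hxy⟩ := h1 ℝ D.m D.n D.su D.lie x hx y' hy'
    refine ⟨⟨⟨z, hz⟩, ⟨c + d, D.b.add_mem hc hd⟩⟩, ?_⟩
    change ue x * ud c * (ue y * ud d) = ue z * ud (c + d)
    rw [← hxy, ← he, ← ud_mul]
    group
  · refine ⟨⟨⟨0, D.n.zero_mem⟩, ⟨0, D.b.zero_mem⟩⟩, ?_⟩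
    change 1 = ue (0 : Matrix (Fin D.m) (Fin D.m) ℝ) * ud (0 : Fin D.m → ℝ)
    rw [ue_zero, ud_zero, one_mul]
  · rintro g ⟨⟨⟨x, hx⟩, ⟨c, hc⟩⟩, rfl⟩
    obtain ⟨x', hx', -, he⟩ := key (-c) (D.b.neg_mem hc) (-x) (D.n.neg_mem hx)
    refine ⟨⟨⟨x', hx'⟩, ⟨-c, D.b.neg_mem hc⟩⟩, ?_⟩
    change (ue x * ud c)⁻¹ = ue x' * ud (-c)
    rw [← he, _root_.mul_inv_rev, ud_inv, ue_inv (D.su x hx)]
    group

end Pool.Agent.QSX.H46
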